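import Mathlib
import Pool.Agent.Work.MP_59a37c_gt.Main

set_option autoImplicit false

open Pool.Agent.Work.MP_59a37c_gt

universe u

/-- Let `X` be a Tychonoff `k`-space with a regular `G_δ`-diagonal. If `A_4(X)` is snf-countable,
then `A_n(X)` is snf-countable for every `n`. In fact, if `A_m(X)` is snf-countable for
some `m ≥ 2`, then `A_n(X)` is first countable for every `n`. -/
theorem Pool.Agent.Results.MP_59a37c_gt.LevelTwoSuffices.result
    (X : Type u) [TopologicalSpace X] [T35Space X]
    (hk : IsKSpace X) (hd : HasRegularGdeltaDiagonal X) :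
    (SnfCountable (FA.Level X 4) → ∀ n, SnfCountable (FA.Level X n)) ∧
      ∀ m, 2 ≤ m → SnfCountable (FA.Level X m) →
        ∀ n, FirstCountableTopology (FA.Level X n) := by
  refine ⟨fun h n => ?_, fun m hm h n => main hk hd hm h n⟩
  have := main hk hd (by norm_num) h n
  exact SnfCountable.of_firstCountable _
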